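import Pool.Agent.H33.DegenDefs

set_option autoImplicit false

namespace Pool.Agent.Results.MP_f95752_co.Q1

open Pool.Agent.H33.Degen

def adj (a b : Fin 7) : Bool :=
  (a.val < 3 && 3 ≤ b.val) || (b.val < 3 && 3 ≤ a.val) || (a.val == 6 && (b.val == 3 || b.val == 4))
    || (b.val == 6 && (a.val == 3 || a.val == 4))

def G : SimpleGraph (Fin 7) where
  Adj a b := adj a b = true
  symm := ⟨by decide⟩
  loopless := ⟨by decide⟩

lemma degen_iff (d : ℕ) (S : Finset (Fin 7)) : Degen G d S ↔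
    ∀ T ⊆ S, T.Nonempty → ∃ v ∈ T, (T.filter fun w => adj v w = true).card ≤ d := by
  unfold Degen
  have : ∀ (T : Finset (Fin 7)) (v : Fin 7), {w | w ∈ T ∧ G.Adj v w}.ncard =
      (T.filter fun w => adj v w = true).card := by
    intro T v
    rw [← Set.ncard_coe_finset]
    congr 1
    ext w
    simp [G]
  simp only [this]

lemma h3 : ∀ T : Finset (Fin 7), T.Nonempty →
    ∃ v ∈ T, (T.filter fun w => adj v w = true).card ≤ 3 := by decide +kernel

lemma h2 : ∀ S : Finset (Fin 7), 6 ≤ S.card → ∃ T ⊆ S, T.Nonempty ∧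
    ∀ v ∈ T, 2 < (T.filter fun w => adj v w = true).card := by decide +kernel

lemma not2 (S : Finset (Fin 7)) (hS : 6 ≤ S.card) (j : ℕ) (hj : j ≤ 2) : ¬ Degen G j S := by
  rw [degen_iff]
  intro h
  obtain ⟨T, h1, h2, h3⟩ := h2 S hS
  obtain ⟨v, hv, h4⟩ := h T h1 h2
  have := h3 v hv
  omega

theorem result : ∃ (k d n : ℕ) (G : SimpleGraph (Fin n)), 3 ≤ k ∧ d < k ∧ 0 < n ∧
    IsLeast {j | Degen G j Finset.univ} k ∧
    ∀ S : Finset (Fin n), Degen G d S → (k + 1) * S.card < (d + 1) * n := by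
  refine ⟨3, 2, 7, G, le_rfl, by norm_num, by norm_num, ⟨?_, fun j hj => ?_⟩, fun S hS => ?_⟩
  · exact (degen_iff 3 _).2 fun T _ hT => h3 T hT
  · by_contra hlt
    exact not2 _ (by simp) j (by omega) hj
  · by_contra hlt
    exact not2 S (by omega) 2 le_rfl hS

end Pool.Agent.Results.MP_f95752_co.Q1
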